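import Mathlib

set_option autoImplicit false
set_option linter.unusedSectionVars false

/-! MP_5e4462_co: a minimal strongly biconnected digraph on `n ≥ 3` vertices has at most `2n - 3`
arcs, and this is sharp for every `n ≥ 3`. -/

namespace Pool.Agent.Results.MP_5e4462_co.MinimalBound

open Relation

/-- every vertex reaches every vertex along arcs of `E` -/
def StronglyConnected {V : Type} (E : Finset (V × V)) : Prop :=
  ∀ u w : V, ReflTransGen (fun a b => (a, b) ∈ E) u w

/-- the underlying simple graph of a digraph: `u`, `w` are adjacent iff `u ≠ w` and at least one of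
`(u, w)`, `(w, u)` is an arc -/
def underlying {V : Type} (E : Finset (V × V)) : SimpleGraph V :=
  SimpleGraph.fromRel fun a b => (a, b) ∈ E

/-- strongly biconnected: strongly connected, and deleting any one vertex does not disconnect the
underlying simple graph -/
def StronglyBiconnected {V : Type} (E : Finset (V × V)) : Prop :=
  StronglyConnected E ∧ ∀ x : V, ((underlying E).induce {x}ᶜ).Preconnected

/-- a digraph (no loops, no parallel arcs) that is strongly biconnected and loses this property
when any arc is deleted -/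
def IsMinimalSB {V : Type} [DecidableEq V] (E : Finset (V × V)) : Prop :=
  (∀ e ∈ E, e.1 ≠ e.2) ∧ StronglyBiconnected E ∧ ∀ e ∈ E, ¬ StronglyBiconnected (E.erase e)

section core

variable {V : Type} [DecidableEq V]

def Str (S : Finset V) (F : Finset (V × V)) : Prop :=
  ∀ u ∈ S, ∀ w ∈ S, ReflTransGen (fun a b => (a, b) ∈ F) u w

def Av (F : Finset (V × V)) (x a b : V) : Prop := a ≠ x ∧ b ≠ x ∧ ((a, b) ∈ F ∨ (b, a) ∈ F)

def Bic (S : Finset V) (F : Finset (V × V)) : Prop :=
  ∀ x, ∀ u ∈ S, ∀ w ∈ S, u ≠ x → w ≠ x → ReflTransGen (Av F x) u w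

theorem Av_symm (F : Finset (V × V)) (x a b : V) (h : Av F x a b) : Av F x b a :=
  ⟨h.2.1, h.1, h.2.2.symm⟩

theorem rtg_symm {F : Finset (V × V)} {x a b : V} (h : ReflTransGen (Av F x) a b) :
    ReflTransGen (Av F x) b a := by
  induction h with
  | refl => exact ReflTransGen.refl
  | tail _ h2 ih => exact ReflTransGen.head (Av_symm F x _ _ h2) ih

theorem Av_mono {F F' : Finset (V × V)} (h : F ⊆ F') {x a b : V} (hab : ReflTransGen (Av F x) a b) :
    ReflTransGen (Av F' x) a b :=
  ReflTransGen.mono (fun _ _ h1 => ⟨h1.1, h1.2.1, h1.2.2.imp (fun h2 => h h2) (fun h2 => h h2)⟩)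
    _ _ hab

/-- going forward along a sequence -/
theorem fwd {F : Finset (V × V)} {p : ℕ → V} {m : ℕ} (harc : ∀ i < m, (p i, p (i + 1)) ∈ F)
    {i j : ℕ} (hij : i ≤ j) (hj : j ≤ m) : ReflTransGen (fun a b => (a, b) ∈ F) (p i) (p j) := by
  induction j, hij using Nat.le_induction with
  | base => exact ReflTransGen.refl
  | succ j hij ih => exact (ih (by omega)).tail (harc j (by omega))

/-- going along a sequence avoiding a vertex -/
theorem fwdAv {F : Finset (V × V)} {p : ℕ → V} {m : ℕ} (harc : ∀ i < m, (p i, p (i + 1)) ∈ F)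
    {x : V} {i j : ℕ} (hij : i ≤ j) (hj : j ≤ m) (hx : ∀ t, i ≤ t → t ≤ j → p t ≠ x) :
    ReflTransGen (Av F x) (p i) (p j) := by
  induction j, hij using Nat.le_induction with
  | base => exact ReflTransGen.refl
  | succ j hij ih =>
    exact (ih (by omega) fun t h1 h2 => hx t h1 (by omega)).tail
      ⟨hx j hij (by omega), hx (j + 1) (by omega) le_rfl, Or.inl (harc j (by omega))⟩

structure Ear (E : Finset (V × V)) (S : Finset V) (p : ℕ → V) (k : ℕ) : Prop where
  hk : 1 ≤ k
  h0 : p 0 ∈ S
  h1 : p (k + 1) ∈ S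
  hne : p 0 ≠ p (k + 1)
  hout : ∀ i, 1 ≤ i → i ≤ k → p i ∉ S
  hinj : ∀ i j, 1 ≤ i → i ≤ k → 1 ≤ j → j ≤ k → p i = p j → i = j
  harc : ∀ i < k + 1, (p i, p (i + 1)) ∈ E

theorem ear_step {E : Finset (V × V)} {S : Finset V} {p : ℕ → V} {k : ℕ} (he : Ear E S p k)
    {F : Finset (V × V)} (hF : F ⊆ E) (hs : Str S F) (hb : Bic S F) :
    ∃ (S' : Finset V) (F' : Finset (V × V)), F' ⊆ E ∧ Str S' F' ∧ Bic S' F' ∧
      S'.card = S.card + k ∧ F'.card ≤ F.card + (k + 1) := by
  classical
  set A : Finset (V × V) := (Finset.range (k + 1)).image fun i => (p i, p (i + 1)) with hA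
  set I : Finset V := (Finset.Icc 1 k).image p with hI
  refine ⟨S ∪ I, F ∪ A, ?_, ?_, ?_, ?_, ?_⟩
  · refine Finset.union_subset hF ?_
    intro e he'
    obtain ⟨i, hi, rfl⟩ := Finset.mem_image.1 he'
    exact he.harc i (Finset.mem_range.1 hi)
  · have harc : ∀ i < k + 1, (p i, p (i + 1)) ∈ F ∪ A := fun i hi =>
      Finset.mem_union_right _ (Finset.mem_image.2 ⟨i, Finset.mem_range.2 hi, rfl⟩)
    have hout : ∀ u ∈ S ∪ I, ∃ s ∈ S, ReflTransGen (fun a b => (a, b) ∈ F ∪ A) u s := by
      intro u hu
      rcases Finset.mem_union.1 hu with hu | hu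
      · exact ⟨u, hu, ReflTransGen.refl⟩
      · obtain ⟨i, hi, rfl⟩ := Finset.mem_image.1 hu
        rw [Finset.mem_Icc] at hi
        exact ⟨p (k + 1), he.h1, fwd harc (by omega) le_rfl⟩
    have hin : ∀ u ∈ S ∪ I, ∃ s ∈ S, ReflTransGen (fun a b => (a, b) ∈ F ∪ A) s u := by
      intro u hu
      rcases Finset.mem_union.1 hu with hu | hu
      · exact ⟨u, hu, ReflTransGen.refl⟩
      · obtain ⟨i, hi, rfl⟩ := Finset.mem_image.1 hu
        rw [Finset.mem_Icc] at hi
        exact ⟨p 0, he.h0, fwd harc (by omega) (by omega)⟩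
    intro u hu w hw
    obtain ⟨s, hs1, hs2⟩ := hout u hu
    obtain ⟨t, ht1, ht2⟩ := hin w hw
    exact (hs2.trans (ReflTransGen.mono (fun _ _ h => Finset.mem_union_left _ h) _ _
      (hs s hs1 t ht1))).trans ht2
  · have harc : ∀ i < k + 1, (p i, p (i + 1)) ∈ F ∪ A := fun i hi =>
      Finset.mem_union_right _ (Finset.mem_image.2 ⟨i, Finset.mem_range.2 hi, rfl⟩)
    intro x
    have key : ∀ u ∈ S ∪ I, u ≠ x → ∃ s ∈ S, s ≠ x ∧ ReflTransGen (Av (F ∪ A) x) u s := by
      intro u hu hux
      rcases Finset.mem_union.1 hu with hu | hu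
      · exact ⟨u, hu, hux, ReflTransGen.refl⟩
      · obtain ⟨i, hi, rfl⟩ := Finset.mem_image.1 hu
        rw [Finset.mem_Icc] at hi
        by_cases hd : ∀ t, t ≤ i → p t ≠ x
        · exact ⟨p 0, he.h0, hd 0 (by omega), rtg_symm (fwdAv harc (by omega) (by omega)
            fun t _ h2 => hd t h2)⟩
        · push Not at hd
          obtain ⟨j, hj1, hj2⟩ := hd
          have hji : j ≠ i := fun h => hux (h ▸ hj2)
          have hup : ∀ t, i ≤ t → t ≤ k + 1 → p t ≠ x := by
            intro t ht1 ht2 ht3
            rcases Nat.eq_zero_or_pos j with hj0 | hj0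
            · subst hj0
              rcases Nat.lt_or_ge k t with h | h
              · have : t = k + 1 := by omega
                subst this
                exact he.hne (hj2.trans ht3.symm)
              · exact he.hout t (by omega) h (by rw [ht3, ← hj2]; exact he.h0)
            · rcases Nat.lt_or_ge k t with h | h
              · have : t = k + 1 := by omega
                subst this
                exact he.hout j hj0 (by omega) (by rw [hj2, ← ht3]; exact he.h1)
              · have := he.hinj t j (by omega) h hj0 (by omega) (ht3.trans hj2.symm)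
                omega
          exact ⟨p (k + 1), he.h1, hup _ (by omega) le_rfl,
            fwdAv harc (by omega) le_rfl fun t h1 h2 => hup t h1 h2⟩
    intro u hu w hw hux hwx
    obtain ⟨s, hs1, hs2, hs3⟩ := key u hu hux
    obtain ⟨t, ht1, ht2, ht3⟩ := key w hw hwx
    exact (hs3.trans (Av_mono Finset.subset_union_left (hb x s hs1 t ht1 hs2 ht2))).trans
      (rtg_symm ht3)
  · have hdisj : Disjoint S I := by
      rw [Finset.disjoint_left]
      intro a ha ha'
      obtain ⟨i, hi, rfl⟩ := Finset.mem_image.1 ha'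
      rw [Finset.mem_Icc] at hi
      exact he.hout i hi.1 hi.2 ha
    rw [Finset.card_union_of_disjoint hdisj, hI, Finset.card_image_of_injOn, Nat.card_Icc]
    · omega
    · intro i hi j hj hij
      have hi' := Finset.mem_Icc.1 (Finset.mem_coe.1 hi)
      have hj' := Finset.mem_Icc.1 (Finset.mem_coe.1 hj)
      exact he.hinj i j hi'.1 hi'.2 hj'.1 hj'.2 hij
  · refine (Finset.card_union_le _ _).trans ?_
    have : A.card ≤ k + 1 := by
      refine Finset.card_image_le.trans ?_
      rw [Finset.card_range]
    omega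

/-- a chain as a sequence -/
theorem exists_seq {R : V → V → Prop} {a b : V} (h : ReflTransGen R a b) :
    ∃ (k : ℕ) (p : ℕ → V), p 0 = a ∧ p k = b ∧ ∀ i < k, R (p i) (p (i + 1)) := by
  induction h with
  | refl => exact ⟨0, fun _ => a, rfl, rfl, fun i hi => absurd hi (by omega)⟩
  | @tail b c _ h2 ih =>
    obtain ⟨k, p, h0, hk, hp⟩ := ih
    refine ⟨k + 1, fun i => if i ≤ k then p i else c, by simp [h0], by simp, ?_⟩
    intro i hi
    rcases Nat.lt_or_ge i k with h | h
    · have h1 : i ≤ k := h.le
      have h3 : i + 1 ≤ k := h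
      simp only [h1, h3, if_true]
      exact hp i h
    · have h1 : i = k := by omega
      subst h1
      simp only [le_refl, if_true]
      rw [if_neg (by omega), hk]
      exact h2

/-- an open ear exists as soon as the vertex set is not everything -/
theorem ear_exists [Fintype V] {E : Finset (V × V)} (hE : Str Finset.univ E)
    (hB : Bic Finset.univ E) {S : Finset V} (hS : 2 ≤ S.card) (hne : S ≠ Finset.univ) :
    ∃ (p : ℕ → V) (k : ℕ), Ear E S p k := by
  classical
  -- the weak form, without injectivity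
  let P : ℕ → Prop := fun k => 1 ≤ k ∧ ∃ p : ℕ → V, p 0 ∈ S ∧ p (k + 1) ∈ S ∧ p 0 ≠ p (k + 1) ∧
    (∀ i, 1 ≤ i → i ≤ k → p i ∉ S) ∧ ∀ i < k + 1, (p i, p (i + 1)) ∈ E
  have hP : ∃ k, P k := by
    by_contra hno
    push Not at hno
    let R : V → V → Prop := fun a b => (a, b) ∈ E ∧ a ∉ S ∧ b ∉ S
    have hnoear : ∀ a c c' b, a ∈ S → b ∈ S → c ∉ S → (a, c) ∈ E → ReflTransGen R c c' →
        (c', b) ∈ E → a = b := by
      intro a c c' b ha hb hc hac hcc hcb
      by_contra hab
      obtain ⟨m, q, hq0, hqm, hq⟩ := exists_seq hcc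
      refine hno (m + 1) ⟨by omega, fun i => if i = 0 then a else if i ≤ m + 1 then q (i - 1)
        else b, by simp [ha], ?_, ?_, ?_, ?_⟩
      · simp [hb]
      · simpa using hab
      · intro i hi1 hi2
        have h1 : i ≠ 0 := by omega
        simp only [h1, hi2, if_true, if_false]
        rcases Nat.lt_or_ge (i - 1) m with h | h
        · exact (hq (i - 1) h).2.1
        · have h3 : i - 1 = m := by omega
          rcases Nat.eq_zero_or_pos m with hm | hm
          · rw [h3, hm, hq0]; exact hc
          · rw [h3]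
            have := (hq (m - 1) (by omega)).2.2
            rwa [Nat.sub_add_cancel hm] at this
      · intro i hi
        rcases Nat.eq_zero_or_pos i with h | h
        · subst h
          simp [hq0, hac]
        · have h1 : i ≠ 0 := by omega
          rcases Nat.lt_or_ge i (m + 1) with h2 | h2
          · have h3 : i ≤ m + 1 := by omega
            have h4 : i + 1 ≤ m + 1 := by omega
            simp only [h1, h3, h4, if_true, if_false, Nat.add_sub_cancel]
            rw [if_neg (by omega)]
            have := (hq (i - 1) (by omega)).1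
            rwa [Nat.sub_add_cancel h] at this
          · have h3 : i = m + 1 := by omega
            subst h3
            simp [hqm, hcb]
    -- entering points
    have hout : ∀ v, v ∉ S → ∃ b ∈ S, ∃ c', ReflTransGen R v c' ∧ (c', b) ∈ E := by
      intro v hv
      have hSne : S.Nonempty := Finset.card_pos.1 (by omega)
      obtain ⟨s, hs⟩ := hSne
      have hpath := hE v (Finset.mem_univ _) s (Finset.mem_univ _)
      have : ∀ t, ReflTransGen (fun a b => (a, b) ∈ E) v t →
          (ReflTransGen R v t ∧ t ∉ S) ∨ ∃ b ∈ S, ∃ c', ReflTransGen R v c' ∧ (c', b) ∈ E := by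
        intro t ht
        induction ht with
        | refl => exact Or.inl ⟨ReflTransGen.refl, hv⟩
        | @tail b c _ h2 ih =>
          rcases ih with ⟨ih1, ih2⟩ | ih
          · by_cases hc : c ∈ S
            · exact Or.inr ⟨c, hc, b, ih1, h2⟩
            · exact Or.inl ⟨ih1.tail ⟨h2, ih2, hc⟩, hc⟩
          · exact Or.inr ih
      rcases this s hpath with h | h
      · exact absurd hs h.2
      · exact h
    have hin : ∀ v, v ∉ S → ∃ a ∈ S, ∃ c, c ∉ S ∧ (a, c) ∈ E ∧ ReflTransGen R c v := by
      intro v hv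
      have hSne : S.Nonempty := Finset.card_pos.1 (by omega)
      obtain ⟨s, hs⟩ := hSne
      have hpath := hE s (Finset.mem_univ _) v (Finset.mem_univ _)
      have : ∀ t, ReflTransGen (fun a b => (a, b) ∈ E) s t →
          t ∈ S ∨ (t ∉ S ∧ ∃ a ∈ S, ∃ c, c ∉ S ∧ (a, c) ∈ E ∧ ReflTransGen R c t) := by
        intro t ht
        induction ht with
        | refl => exact Or.inl hs
        | @tail b c _ h2 ih =>
          by_cases hc : c ∈ S
          · exact Or.inl hc
          · refine Or.inr ⟨hc, ?_⟩
            rcases ih with ih | ⟨ih0, a, ha, d, hd, had, hdb⟩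
            · exact ⟨b, ih, c, hc, h2, ReflTransGen.refl⟩
            · exact ⟨a, ha, d, hd, had, hdb.tail ⟨h2, ih0, hc⟩⟩
      rcases this v hpath with h | h
      · exact absurd h hv
      · exact h.2
    -- the attachment vertex
    obtain ⟨v0, hv0⟩ : ∃ v0, v0 ∉ S := by
      by_contra h
      push Not at h
      exact hne (Finset.eq_univ_iff_forall.2 h)
    obtain ⟨x, hxS, hx⟩ := hout v0 hv0
    obtain ⟨s, hs, hsx⟩ : ∃ s ∈ S, s ≠ x := Finset.exists_mem_ne (by omega) x
    have hpath := hB x v0 (Finset.mem_univ _) s (Finset.mem_univ _)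
      (fun h => hv0 (h ▸ hxS)) hsx
    have hinv : ∀ t, ReflTransGen (Av E x) v0 t →
        t ∉ S ∧ ∃ c', ReflTransGen R t c' ∧ (c', x) ∈ E := by
      intro t ht
      induction ht with
      | refl => exact ⟨hv0, hx⟩
      | @tail b c _ h2 ih =>
        obtain ⟨hbS, c', hbc', hc'x⟩ := ih
        obtain ⟨hbx, hcx, hbc | hcb⟩ := h2
        · -- arc b → c
          obtain ⟨a, haS, d, hdS, had, hdb⟩ := hin b hbS
          have hax : a = x := hnoear a d c' x haS hxS hdS had (hdb.trans hbc') hc'x
          by_cases hc : c ∈ S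
          · exfalso
            have := hnoear a d b c haS hc hdS had hdb hbc
            exact hcx (this.symm.trans hax)
          · refine ⟨hc, ?_⟩
            obtain ⟨y, hyS, e, hce, hey⟩ := hout c hc
            have hay : a = y := hnoear a d e y haS hyS hdS had
              ((hdb.tail ⟨hbc, hbS, hc⟩).trans hce) hey
            exact ⟨e, hce, by rw [← hax, hay]; exact hey⟩
        · -- arc c → b
          by_cases hc : c ∈ S
          · exfalso
            have := hnoear c b c' x hc hxS hbS hcb hbc' hc'x
            exact hcx this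
          · refine ⟨hc, c', ?_, hc'x⟩
            exact ReflTransGen.head ⟨hcb, hc, hbS⟩ hbc'
    exact (hinv s hpath).1 hs
  obtain ⟨hk1, p, hp0, hp1, hpne, hpout, hparc⟩ := Nat.find_spec hP
  set k := Nat.find hP with hk
  refine ⟨p, k, hk1, hp0, hp1, hpne, hpout, ?_, hparc⟩
  -- injectivity from minimality
  have hlt : ∀ i j, 1 ≤ i → i < j → j ≤ k → p i ≠ p j := by
    intro i j hi hij hj heq
    refine Nat.find_min hP (m := k - (j - i)) (by omega) ⟨by omega,
      fun t => if t ≤ i then p t else p (t + (j - i)), ?_, ?_, ?_, ?_, ?_⟩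
    · simp [hp0]
    · have h1 : ¬ (k - (j - i) + 1 ≤ i) := by omega
      have h2 : k - (j - i) + 1 + (j - i) = k + 1 := by omega
      simp only [h1, if_false, h2]
      exact hp1
    · have h1 : ¬ (k - (j - i) + 1 ≤ i) := by omega
      have h2 : k - (j - i) + 1 + (j - i) = k + 1 := by omega
      simp only [h1, if_false, h2, Nat.zero_le, if_true]
      exact hpne
    · intro t ht1 ht2
      by_cases h : t ≤ i
      · simp only [h, if_true]
        exact hpout t ht1 (by omega)
      · simp only [h, if_false]
        exact hpout _ (by omega) (by omega)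
    · intro t ht
      rcases Nat.lt_trichotomy t i with h | h | h
      · have h1 : t ≤ i := h.le
        have h2 : t + 1 ≤ i := h
        simp only [h1, h2, if_true]
        exact hparc t (by omega)
      · subst h
        have h2 : ¬ (t + 1 ≤ t) := by omega
        simp only [le_refl, h2, if_true, if_false]
        have h3 : t + 1 + (j - t) = j + 1 := by omega
        rw [h3, heq]
        exact hparc j (by omega)
      · have h1 : ¬ t ≤ i := by omega
        have h2 : ¬ t + 1 ≤ i := by omega
        simp only [h1, h2, if_false]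
        have h3 : t + 1 + (j - i) = t + (j - i) + 1 := by omega
        rw [h3]
        exact hparc _ (by omega)
  intro i j hi1 hi2 hj1 hj2 hij
  rcases Nat.lt_trichotomy i j with h | h | h
  · exact absurd hij (hlt i j hi1 h hj2)
  · exact h
  · exact absurd hij.symm (hlt j i hj1 h hi2)

/-- a directed cycle is strongly biconnected -/
theorem cycle_step {E : Finset (V × V)} {q : ℕ → V} {L : ℕ} (hL : 2 ≤ L)
    (hinj : ∀ i j, i < L → j < L → q i = q j → i = j) (hcl : q L = q 0)
    (harcE : ∀ i < L, (q i, q (i + 1)) ∈ E) :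
    ∃ (S : Finset V) (F : Finset (V × V)), F ⊆ E ∧ Str S F ∧ Bic S F ∧ S.card = L ∧
      F.card ≤ L := by
  classical
  set A : Finset (V × V) := (Finset.range L).image fun i => (q i, q (i + 1)) with hA
  have harc : ∀ i < L, (q i, q (i + 1)) ∈ A := fun i hi =>
    Finset.mem_image.2 ⟨i, Finset.mem_range.2 hi, rfl⟩
  refine ⟨(Finset.range L).image q, A, ?_, ?_, ?_, ?_, ?_⟩
  · intro e he'
    obtain ⟨i, hi, rfl⟩ := Finset.mem_image.1 he'
    exact harcE i (Finset.mem_range.1 hi)
  · intro u hu w hw
    obtain ⟨i, hi, rfl⟩ := Finset.mem_image.1 hu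
    obtain ⟨j, hj, rfl⟩ := Finset.mem_image.1 hw
    rw [Finset.mem_range] at hi hj
    have h1 := fwd harc (i := i) (j := L) (by omega) le_rfl
    have h2 := fwd harc (i := 0) (j := j) (by omega) (by omega)
    rw [hcl] at h1
    exact h1.trans h2
  · intro x
    by_cases hx : q 0 = x
    · -- everything reaches q 1
      have key : ∀ u ∈ (Finset.range L).image q, u ≠ x → ReflTransGen (Av A x) u (q 1) := by
        intro u hu hux
        obtain ⟨i, hi, rfl⟩ := Finset.mem_image.1 hu
        rw [Finset.mem_range] at hi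
        have hi0 : i ≠ 0 := by
          rintro rfl
          exact hux hx
        refine rtg_symm (fwdAv harc (by omega) (by omega) fun t h1 h2 h3 => ?_)
        have := hinj t 0 (by omega) (by omega) (h3.trans hx.symm)
        omega
      intro u hu w hw hux hwx
      exact (key u hu hux).trans (rtg_symm (key w hw hwx))
    · have key : ∀ u ∈ (Finset.range L).image q, u ≠ x → ReflTransGen (Av A x) u (q 0) := by
        intro u hu hux
        obtain ⟨i, hi, rfl⟩ := Finset.mem_image.1 hu
        rw [Finset.mem_range] at hi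
        by_cases hd : ∀ t, t ≤ i → q t ≠ x
        · exact rtg_symm (fwdAv harc (by omega) (by omega) fun t _ h2 => hd t h2)
        · push Not at hd
          obtain ⟨j, hj1, hj2⟩ := hd
          have hji : j ≠ i := fun h => hux (h ▸ hj2)
          have hup : ∀ t, i ≤ t → t ≤ L → q t ≠ x := by
            intro t ht1 ht2 ht3
            rcases Nat.lt_or_ge t L with h | h
            · have := hinj t j h (by omega) (ht3.trans hj2.symm)
              omega
            · have : t = L := by omega
              subst this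
              exact hx (hcl ▸ ht3)
          have h1 := fwdAv harc (i := i) (j := L) (by omega) le_rfl fun t h1 h2 => hup t h1 h2
          rwa [hcl] at h1
      intro u hu w hw hux hwx
      exact (key u hu hux).trans (rtg_symm (key w hw hwx))
  · rw [Finset.card_image_of_injOn, Finset.card_range]
    intro i hi j hj hij
    exact hinj i j (Finset.mem_range.1 (Finset.mem_coe.1 hi))
      (Finset.mem_range.1 (Finset.mem_coe.1 hj)) hij
  · refine Finset.card_image_le.trans ?_
    rw [Finset.card_range]

/-- a directed cycle of length at least three exists -/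
theorem cycle_exists [Fintype V] {E : Finset (V × V)} (hloop : ∀ e ∈ E, e.1 ≠ e.2)
    (hE : Str Finset.univ E) (hB : Bic Finset.univ E) (hn : 3 ≤ Fintype.card V) :
    ∃ (q : ℕ → V) (L : ℕ), 3 ≤ L ∧ (∀ i j, i < L → j < L → q i = q j → i = j) ∧ q L = q 0 ∧
      ∀ i < L, (q i, q (i + 1)) ∈ E := by
  classical
  let P : ℕ → Prop := fun m => 1 ≤ m ∧ ∃ p : ℕ → V, p m = p 0 ∧ ∀ i < m, (p i, p (i + 1)) ∈ E
  have hP : ∃ m, P m := by
    obtain ⟨u, w, huw⟩ := Fintype.exists_pair_of_one_lt_card (α := V) (by omega)
    obtain ⟨k, p, hp0, hpk, hp⟩ := exists_seq (hE u (Finset.mem_univ _) w (Finset.mem_univ _))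
    obtain ⟨l, r, hr0, hrl, hr⟩ := exists_seq (hE w (Finset.mem_univ _) u (Finset.mem_univ _))
    have hk : k ≠ 0 := by
      rintro rfl
      exact huw (hp0.symm.trans hpk)
    refine ⟨k + l, by omega, fun i => if i ≤ k then p i else r (i - k), ?_, ?_⟩
    · simp only [Nat.zero_le, if_true, hp0]
      rcases Nat.eq_zero_or_pos l with h | h
      · subst h
        exact absurd (hr0.symm.trans hrl) huw.symm
      · rw [if_neg (by omega)]
        have : k + l - k = l := by omega
        rw [this, hrl]
    · intro i hi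
      rcases Nat.lt_trichotomy i k with h | h | h
      · have h1 : i ≤ k := h.le
        have h2 : i + 1 ≤ k := h
        simp only [h1, h2, if_true]
        exact hp i h
      · subst h
        have h2 : ¬ i + 1 ≤ i := by omega
        have h3 : i + 1 - i = 0 + 1 := by omega
        simp only [le_refl, h2, if_true, if_false, h3, hpk]
        rw [← hr0]
        exact hr 0 (by omega)
      · have h1 : ¬ i ≤ k := by omega
        have h2 : ¬ i + 1 ≤ k := by omega
        have h3 : i + 1 - k = i - k + 1 := by omega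
        simp only [h1, h2, if_false, h3]
        exact hr _ (by omega)
  obtain ⟨hm1, p, hpm, hp⟩ := Nat.find_spec hP
  set m := Nat.find hP with hm
  have hinj : ∀ i j, i < j → j < m → p i ≠ p j := by
    intro i j hij hj heq
    refine Nat.find_min hP (m := j - i) (by omega) ⟨by omega, fun t => p (t + i), ?_, ?_⟩
    · have : j - i + i = j := by omega
      simp only [this, Nat.zero_add]
      exact heq.symm
    · intro t ht
      have : t + 1 + i = t + i + 1 := by omega
      simp only [this]
      exact hp _ (by omega)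
  have hinj' : ∀ i j, i < m → j < m → p i = p j → i = j := by
    intro i j hi hj h
    rcases Nat.lt_trichotomy i j with h1 | h1 | h1
    · exact absurd h (hinj i j h1 hj)
    · exact h1
    · exact absurd h.symm (hinj j i h1 hi)
  have hmne1 : m ≠ 1 := by
    intro h
    have h1 := hp 0 (by omega)
    have h2 := hloop _ h1
    rw [h] at hpm
    exact h2 hpm.symm
  rcases Nat.lt_or_ge m 3 with h3 | h3
  · have hm2 : m = 2 := by omega
    rw [hm2] at hpm hp hinj'
    have hp01 : p 0 ≠ p 1 := fun h => by
      have := hinj' 0 1 (by omega) (by omega) h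
      omega
    have ha1 : (p 0, p 1) ∈ E := hp 0 (by omega)
    have ha2 : (p 1, p 0) ∈ E := by
      have := hp 1 (by omega)
      rwa [show 1 + 1 = 2 from rfl, hpm] at this
    set S : Finset V := {p 0, p 1} with hS
    have hScard : S.card = 2 := Finset.card_pair hp01
    have hSne : S ≠ Finset.univ := by
      intro h
      have := congrArg Finset.card h
      rw [hScard, Finset.card_univ] at this
      omega
    obtain ⟨r, k, hr⟩ := ear_exists hE hB (S := S) (by omega) hSne
    have hlast : (r (k + 1), r 0) ∈ E := by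
      have h0 := hr.h0
      have h1 := hr.h1
      have hne := hr.hne
      rw [hS, Finset.mem_insert, Finset.mem_singleton] at h0 h1
      rcases h0 with h0 | h0 <;> rcases h1 with h1 | h1
      · exact absurd (h0.trans h1.symm) hne
      · rw [h0, h1]; exact ha2
      · rw [h0, h1]; exact ha1
      · exact absurd (h0.trans h1.symm) hne
    have hk := hr.hk
    have hlt : ∀ i j, i < j → j < k + 2 → r i ≠ r j := by
      intro i j hij hj heq
      rcases Nat.eq_zero_or_pos i with hi | hi
      · subst hi
        rcases Nat.lt_or_ge k j with h | h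
        · have : j = k + 1 := by omega
          subst this
          exact hr.hne heq
        · exact hr.hout j (by omega) h (heq ▸ hr.h0)
      · rcases Nat.lt_or_ge k j with h | h
        · have : j = k + 1 := by omega
          subst this
          exact hr.hout i (by omega) (by omega) (heq ▸ hr.h1)
        · have := hr.hinj i j hi (by omega) (by omega) h heq
          omega
    refine ⟨fun i => if i ≤ k + 1 then r i else r 0, k + 2, by omega, ?_, ?_, ?_⟩
    · intro i j hi hj hij
      have h1 : i ≤ k + 1 := by omega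
      have h2 : j ≤ k + 1 := by omega
      simp only [h1, h2, if_true] at hij
      rcases Nat.lt_trichotomy i j with h | h | h
      · exact absurd hij (hlt i j h hj)
      · exact h
      · exact absurd hij.symm (hlt j i h hi)
    · have h1 : ¬ (k + 2 ≤ k + 1) := by omega
      simp
    · intro i hi
      rcases Nat.lt_or_ge i (k + 1) with h | h
      · have h1 : i ≤ k + 1 := h.le
        have h2 : i + 1 ≤ k + 1 := h
        simp only [h1, h2, if_true]
        exact hr.harc i h
      · have h1 : i = k + 1 := by omega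
        subst h1
        have h2 : ¬ (k + 1 + 1 ≤ k + 1) := by omega
        simp only [le_refl, if_true, h2, if_false]
        exact hlast
  · exact ⟨p, m, h3, hinj', hpm, hp⟩

/-- extending to a spanning strongly biconnected subgraph -/
theorem extend [Fintype V] {E : Finset (V × V)} (hE : Str Finset.univ E)
    (hB : Bic Finset.univ E) : ∀ (d : ℕ) (S : Finset V) (F : Finset (V × V)),
    Fintype.card V - S.card ≤ d → 2 ≤ S.card → F ⊆ E → Str S F → Bic S F →
    F.card + 3 ≤ 2 * S.card →
    ∃ F' : Finset (V × V), F' ⊆ E ∧ Str Finset.univ F' ∧ Bic Finset.univ F' ∧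
      F'.card + 3 ≤ 2 * Fintype.card V := by
  intro d
  induction d with
  | zero =>
    intro S F hd hS hF hs hb hc
    have hSu : S = Finset.univ := by
      apply Finset.eq_univ_of_card
      have := Finset.card_le_univ S
      omega
    subst hSu
    exact ⟨F, hF, hs, hb, by rwa [Finset.card_univ] at hc⟩
  | succ d ih =>
    intro S F hd hS hF hs hb hc
    by_cases hSu : S = Finset.univ
    · subst hSu
      exact ⟨F, hF, hs, hb, by rwa [Finset.card_univ] at hc⟩
    · obtain ⟨p, k, he⟩ := ear_exists hE hB hS hSu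
      obtain ⟨S', F', h1, h2, h3, h4, h5⟩ := ear_step he hF hs hb
      have hk := he.hk
      exact ih S' F' (by omega) (by omega) h1 h2 h3 (by omega)

theorem spanning [Fintype V] {E : Finset (V × V)} (hloop : ∀ e ∈ E, e.1 ≠ e.2)
    (hE : Str Finset.univ E) (hB : Bic Finset.univ E) (hn : 3 ≤ Fintype.card V) :
    ∃ F' : Finset (V × V), F' ⊆ E ∧ Str Finset.univ F' ∧ Bic Finset.univ F' ∧
      F'.card + 3 ≤ 2 * Fintype.card V := by
  obtain ⟨q, L, hL, hinj, hcl, harc⟩ := cycle_exists hloop hE hB hn
  obtain ⟨S, F, h1, h2, h3, h4, h5⟩ := cycle_step (by omega) hinj hcl harc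
  exact extend hE hB _ S F le_rfl (by omega) h1 h2 h3 (by omega)

end core

section bridge

variable {V : Type} [DecidableEq V]

theorem underlying_adj (E : Finset (V × V)) (a b : V) :
    (underlying E).Adj a b ↔ a ≠ b ∧ ((a, b) ∈ E ∨ (b, a) ∈ E) :=
  SimpleGraph.fromRel_adj _ a b

theorem pre_iff (E : Finset (V × V)) (x : V) :
    ((underlying E).induce {x}ᶜ).Preconnected ↔
      ∀ u w : V, u ≠ x → w ≠ x → ReflTransGen (Av E x) u w := by
  constructor
  · intro h u w hu hw
    have h1 := h ⟨u, hu⟩ ⟨w, hw⟩
    rw [SimpleGraph.reachable_iff_reflTransGen] at h1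
    refine ReflTransGen.lift (p := Av E x) (Subtype.val : ({x}ᶜ : Set V) → V) ?_ _ _ h1
    intro a b hab
    have h2 : (underlying E).Adj a.1 b.1 := hab
    rw [underlying_adj] at h2
    exact ⟨a.2, b.2, h2.2⟩
  · intro h u w
    have h1 := h u.1 w.1 u.2 w.2
    have key : ∀ t : V, ReflTransGen (Av E x) u.1 t → ∀ ht : t ∈ ({x}ᶜ : Set V),
        ((underlying E).induce {x}ᶜ).Reachable u ⟨t, ht⟩ := by
      intro t ht
      induction ht with
      | refl => intro ht; exact SimpleGraph.Reachable.refl _
      | @tail b c _ h2 ih =>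
        intro hc
        have hb : b ∈ ({x}ᶜ : Set V) := h2.1
        have h3 := ih hb
        by_cases hbc : b = c
        · subst hbc
          exact h3
        · refine h3.trans (SimpleGraph.Adj.reachable ?_)
          show (underlying E).Adj b c
          rw [underlying_adj]
          exact ⟨hbc, h2.2.2⟩
    exact key w.1 h1 w.2

theorem sb_iff [Fintype V] (E : Finset (V × V)) :
    StronglyBiconnected E ↔ Str Finset.univ E ∧ Bic Finset.univ E := by
  unfold StronglyBiconnected
  constructor
  · rintro ⟨h1, h2⟩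
    exact ⟨fun u _ w _ => h1 u w, fun x u _ w _ hu hw => (pre_iff E x).1 (h2 x) u w hu hw⟩
  · rintro ⟨h1, h2⟩
    exact ⟨fun u w => h1 u (Finset.mem_univ _) w (Finset.mem_univ _), fun x =>
      (pre_iff E x).2 fun u w hu hw => h2 x u (Finset.mem_univ _) w (Finset.mem_univ _) hu hw⟩

theorem sb_mono [Fintype V] {E E' : Finset (V × V)} (h : E ⊆ E')
    (hE : Str Finset.univ E ∧ Bic Finset.univ E) : Str Finset.univ E' ∧ Bic Finset.univ E' :=
  ⟨fun u hu w hw => ReflTransGen.mono (fun _ _ h1 => h h1) _ _ (hE.1 u hu w hw),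
    fun x u hu w hw hux hwx => Av_mono h (hE.2 x u hu w hw hux hwx)⟩

theorem upper [Fintype V] {E : Finset (V × V)} (hE : IsMinimalSB E) (hn : 3 ≤ Fintype.card V) :
    E.card + 3 ≤ 2 * Fintype.card V := by
  obtain ⟨hl, hsb, hmin⟩ := hE
  rw [sb_iff] at hsb
  obtain ⟨F, hF, h1, h2, h3⟩ := spanning hl hsb.1 hsb.2 hn
  have hEF : E = F := by
    by_contra hne
    obtain ⟨e, he, heF⟩ : ∃ e ∈ E, e ∉ F := by
      by_contra hcon
      push Not at hcon
      exact hne (Finset.Subset.antisymm hcon hF)
    refine hmin e he ((sb_iff _).2 (sb_mono ?_ ⟨h1, h2⟩))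
    intro f hf
    exact Finset.mem_erase.2 ⟨fun h => heF (h ▸ hf), hF hf⟩
  rw [hEF]
  exact h3

end bridge

/-! ### sharpness -/

/-- the arcs `0 → 1`, `1 → i → 0` for `i ≥ 2` -/
def book (n : ℕ) : Finset (Fin n × Fin n) :=
  Finset.univ.filter fun e => (e.1.1 = 0 ∧ e.2.1 = 1) ∨ (e.1.1 = 1 ∧ 2 ≤ e.2.1) ∨
    (2 ≤ e.1.1 ∧ e.2.1 = 0)

theorem mem_book {n : ℕ} (a b : Fin n) : (a, b) ∈ book n ↔
    (a.1 = 0 ∧ b.1 = 1) ∨ (a.1 = 1 ∧ 2 ≤ b.1) ∨ (2 ≤ a.1 ∧ b.1 = 0) := by
  simp [book]

theorem book_card (n : ℕ) (hn : 3 ≤ n) : (book n).card + 3 = 2 * n := by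
  obtain ⟨m, rfl⟩ : ∃ m, n = m + 3 := ⟨n - 3, by omega⟩
  set z : Fin (m + 3) := ⟨0, by omega⟩ with hz
  set o : Fin (m + 3) := ⟨1, by omega⟩ with ho
  have h : book (m + 3) = {(z, o)} ∪ (Finset.univ.image fun i : Fin (m + 1) =>
      (o, (⟨i.1 + 2, by omega⟩ : Fin (m + 3)))) ∪ (Finset.univ.image fun i : Fin (m + 1) =>
      ((⟨i.1 + 2, by omega⟩ : Fin (m + 3)), z)) := by
    ext ⟨a, b⟩
    rw [mem_book]
    simp only [Finset.mem_union, Finset.mem_singleton, Finset.mem_image, Finset.mem_univ, true_and,
      Prod.mk.injEq, Fin.ext_iff, hz, ho]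
    constructor
    · rintro (⟨h1, h2⟩ | ⟨h1, h2⟩ | ⟨h1, h2⟩)
      · exact Or.inl (Or.inl ⟨h1, h2⟩)
      · exact Or.inl (Or.inr ⟨⟨b.1 - 2, by omega⟩, h1.symm, by simp; omega⟩)
      · exact Or.inr ⟨⟨a.1 - 2, by omega⟩, by simp; omega, h2.symm⟩
    · rintro ((⟨h1, h2⟩ | ⟨i, h1, h2⟩) | ⟨i, h1, h2⟩)
      · exact Or.inl ⟨h1, h2⟩
      · exact Or.inr (Or.inl ⟨h1.symm, by omega⟩)
      · exact Or.inr (Or.inr ⟨by omega, h2.symm⟩)
  rw [h, Finset.card_union_of_disjoint, Finset.card_union_of_disjoint, Finset.card_singleton,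
    Finset.card_image_of_injective, Finset.card_image_of_injective, Finset.card_univ,
    Fintype.card_fin]
  · omega
  · intro i j hij
    simp only [Prod.mk.injEq, Fin.ext_iff] at hij
    exact Fin.ext (by omega)
  · intro i j hij
    simp only [Prod.mk.injEq, Fin.ext_iff] at hij
    exact Fin.ext (by omega)
  · rw [Finset.disjoint_left]
    rintro ⟨a, b⟩ h1 h2
    rw [Finset.mem_singleton, Prod.mk.injEq, Fin.ext_iff, Fin.ext_iff] at h1
    obtain ⟨i, _, h2⟩ := Finset.mem_image.1 h2
    rw [Prod.mk.injEq, Fin.ext_iff, Fin.ext_iff] at h2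
    simp only [hz, ho] at h1 h2
    omega
  · rw [Finset.disjoint_left]
    rintro ⟨a, b⟩ h1 h2
    obtain ⟨j, _, h2⟩ := Finset.mem_image.1 h2
    rw [Prod.mk.injEq, Fin.ext_iff, Fin.ext_iff] at h2
    rcases Finset.mem_union.1 h1 with h1 | h1
    · rw [Finset.mem_singleton, Prod.mk.injEq, Fin.ext_iff, Fin.ext_iff] at h1
      simp only [hz, ho] at h1 h2
      omega
    · obtain ⟨i, _, h1⟩ := Finset.mem_image.1 h1
      rw [Prod.mk.injEq, Fin.ext_iff, Fin.ext_iff] at h1
      simp only [hz, ho] at h1 h2
      omega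

theorem book_sb (n : ℕ) (hn : 3 ≤ n) :
    Str Finset.univ (book n) ∧ Bic Finset.univ (book n) := by
  set z : Fin n := ⟨0, by omega⟩ with hz
  set o : Fin n := ⟨1, by omega⟩ with ho
  set t : Fin n := ⟨2, by omega⟩ with ht
  have hzo : (z, o) ∈ book n := (mem_book _ _).2 (Or.inl ⟨rfl, rfl⟩)
  have hoi : ∀ i : Fin n, 2 ≤ i.1 → (o, i) ∈ book n := fun i hi =>
    (mem_book _ _).2 (Or.inr (Or.inl ⟨rfl, hi⟩))
  have hiz : ∀ i : Fin n, 2 ≤ i.1 → (i, z) ∈ book n := fun i hi =>
    (mem_book _ _).2 (Or.inr (Or.inr ⟨hi, rfl⟩))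
  constructor
  · have hto : ∀ u : Fin n, ReflTransGen (fun a b => (a, b) ∈ book n) u z := by
      intro u
      rcases Nat.lt_or_ge u.1 2 with h | h
      · rcases Nat.lt_or_ge u.1 1 with h' | h'
        · have : u = z := Fin.ext (by simp [hz]; omega)
          rw [this]
        · have : u = o := Fin.ext (by simp [ho]; omega)
          rw [this]
          exact (ReflTransGen.single (hoi t le_rfl)).tail (hiz t le_rfl)
      · exact ReflTransGen.single (hiz u h)
    have hfrom : ∀ u : Fin n, ReflTransGen (fun a b => (a, b) ∈ book n) z u := by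
      intro u
      rcases Nat.lt_or_ge u.1 2 with h | h
      · rcases Nat.lt_or_ge u.1 1 with h' | h'
        · have : u = z := Fin.ext (by simp [hz]; omega)
          rw [this]
        · have : u = o := Fin.ext (by simp [ho]; omega)
          rw [this]
          exact ReflTransGen.single hzo
      · exact (ReflTransGen.single hzo).tail (hoi u h)
    intro u _ w _
    exact (hto u).trans (hfrom w)
  · intro x
    by_cases hxz : x = z
    · have key : ∀ u : Fin n, u ≠ x → ReflTransGen (Av (book n) x) u o := by
        intro u hu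
        have hox : o ≠ x := by
          rw [hxz]
          intro h
          have := congrArg Fin.val h
          simp [hz, ho] at this
        rcases Nat.lt_or_ge u.1 2 with h | h
        · have : u = o := Fin.ext (by
            have : u.1 ≠ 0 := fun h0 => hu (by rw [hxz]; exact Fin.ext (by simp [hz, h0]))
            simp [ho]; omega)
          rw [this]
        · exact ReflTransGen.single ⟨hu, hox, Or.inr (hoi u h)⟩
      intro u _ w _ hu hw
      exact (key u hu).trans (rtg_symm (key w hw))
    · have hzx : z ≠ x := fun h => hxz h.symm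
      have key : ∀ u : Fin n, u ≠ x → ReflTransGen (Av (book n) x) u z := by
        intro u hu
        rcases Nat.lt_or_ge u.1 2 with h | h
        · rcases Nat.lt_or_ge u.1 1 with h' | h'
          · have : u = z := Fin.ext (by simp [hz]; omega)
            rw [this]
          · have : u = o := Fin.ext (by simp [ho]; omega)
            rw [this] at hu ⊢
            exact ReflTransGen.single ⟨hu, hzx, Or.inr hzo⟩
        · exact ReflTransGen.single ⟨hu, hzx, Or.inl (hiz u h)⟩
      intro u _ w _ hu hw
      exact (key u hu).trans (rtg_symm (key w hw))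

/-- a vertex without out-arcs in a strongly connected digraph is the only vertex -/
theorem no_out {V : Type} {F : Finset (V × V)} {u w : V} (huw : u ≠ w)
    (h : ∀ b, (u, b) ∉ F) : ¬ ReflTransGen (fun a b => (a, b) ∈ F) u w := by
  intro h1
  rcases ReflTransGen.cases_head h1 with h2 | ⟨c, h2, _⟩
  · exact huw h2
  · exact h c h2

theorem no_in {V : Type} {F : Finset (V × V)} {u w : V} (huw : u ≠ w)
    (h : ∀ b, (b, w) ∉ F) : ¬ ReflTransGen (fun a b => (a, b) ∈ F) u w := by
  intro h1
  rcases ReflTransGen.cases_tail h1 with h2 | ⟨c, _, h2⟩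
  · exact huw h2.symm
  · exact h c h2

theorem book_minimal (n : ℕ) (hn : 3 ≤ n) : IsMinimalSB (book n) := by
  refine ⟨?_, (sb_iff _).2 (book_sb n hn), ?_⟩
  · rintro ⟨a, b⟩ h
    rw [mem_book] at h
    intro hab
    have := congrArg Fin.val hab
    simp only at this
    omega
  · rintro ⟨a, b⟩ h hsb
    rw [mem_book] at h
    rw [sb_iff] at hsb
    have hs := hsb.1
    rcases h with ⟨h1, h2⟩ | ⟨h1, h2⟩ | ⟨h1, h2⟩
    · -- the arc 0 → 1: `a` has no out-arc any more
      refine no_out (u := a) (w := b) (fun h => by have := congrArg Fin.val h; omega) ?_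
        (hs a (Finset.mem_univ _) b (Finset.mem_univ _))
      intro c hc
      rw [Finset.mem_erase, mem_book] at hc
      obtain ⟨hc1, hc2⟩ := hc
      refine hc1 (Prod.ext rfl (Fin.ext ?_))
      simp only
      omega
    · refine no_in (u := a) (w := b) (fun h => by have := congrArg Fin.val h; omega) ?_
        (hs a (Finset.mem_univ _) b (Finset.mem_univ _))
      intro c hc
      rw [Finset.mem_erase, mem_book] at hc
      obtain ⟨hc1, hc2⟩ := hc
      refine hc1 (Prod.ext (Fin.ext ?_) rfl)
      simp only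
      omega
    · refine no_out (u := a) (w := b) (fun h => by have := congrArg Fin.val h; omega) ?_
        (hs a (Finset.mem_univ _) b (Finset.mem_univ _))
      intro c hc
      rw [Finset.mem_erase, mem_book] at hc
      obtain ⟨hc1, hc2⟩ := hc
      refine hc1 (Prod.ext rfl (Fin.ext ?_))
      simp only
      omega

/-- **Q1 is true, in the sharp form.**  Every minimal strongly biconnected digraph on `n` vertices
has at most `2n` arcs; for `n ≥ 3` it has at most `2n - 3` arcs, and for every `n ≥ 3` there is one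
with exactly `2n - 3` arcs. -/
theorem result :
    (∀ (V : Type) [Fintype V] [DecidableEq V] (E : Finset (V × V)), IsMinimalSB E →
      E.card ≤ 2 * Fintype.card V ∧
      (3 ≤ Fintype.card V → E.card + 3 ≤ 2 * Fintype.card V)) ∧
    (∀ n : ℕ, 3 ≤ n → ∃ E : Finset (Fin n × Fin n), IsMinimalSB E ∧ E.card + 3 = 2 * n) := by
  refine ⟨?_, fun n hn => ⟨book n, book_minimal n hn, book_card n hn⟩⟩
  intro V _ _ E hE
  refine ⟨?_, fun hn => upper hE hn⟩
  rcases Nat.lt_or_ge (Fintype.card V) 3 with h | h
  · have hsub : E ⊆ (Finset.univ : Finset V).offDiag := by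
      intro e he
      rw [Finset.mem_offDiag]
      exact ⟨Finset.mem_univ _, Finset.mem_univ _, hE.1 e he⟩
    have h1 := Finset.card_le_card hsub
    rw [Finset.offDiag_card, Finset.card_univ] at h1
    have : Fintype.card V = 0 ∨ Fintype.card V = 1 ∨ Fintype.card V = 2 := by omega
    rcases this with h2 | h2 | h2 <;> rw [h2] at h1 ⊢ <;> omega
  · have := upper hE h
    omega

end Pool.Agent.Results.MP_5e4462_co.MinimalBound
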